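import Mathlib
import Pool.Agent.Lib.MP_291eb9_an.Final
import Pool.Agent.Lib.MP_291eb9_an.SetsL

/-!
# The triple meet of harmonic measures of pairwise disjoint fine domains vanishes (`n ≥ 3`)

The proof (files `Pool/Agent/Lib/MP_291eb9_an`) is elementary. With `g_j = N(x_j, ·) - pot ω_j` (the Green
function of `D_j` off a polar set) and a small vector `v`, Kato's inequality for
`w = g_j(· + v) - g_j` gives
`Δ|w| ≥ (1 - 2·1[g_j(· + v) > 0]) ω_j + (1 - 2·1[g_j > 0]) ω_j^v`, where `ω_j^v` is the translate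
of `ω_j`; here one uses that `ω_j` is singular with respect to Lebesgue measure, so that `ω_j` and
`ω_j^v` are mutually singular for almost every `v`. Since `|w| → 0` in `L¹_loc` as `v → 0`, for
`ω_j`-most `z` at least one of `z + v`, `z - v` lies in `{g_j > 0}` on average. Three sets
`{g_j > 0}` that are disjoint up to Lebesgue null sets cannot all have this property on a common
piece of the `ω_j`.
-/

set_option autoImplicit false

namespace Pool.Agent.Results.MP_291eb9_an.TripleMeet

open MeasureTheory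
open scoped ENNReal

/-- `ℝⁿ`. -/
abbrev Space (n : ℕ) := EuclideanSpace ℝ (Fin n)

variable {n : ℕ}

/-- Subharmonic function on the whole of `ℝⁿ`: upper semicontinuous with values in `[-∞, ∞)`, not
identically `-∞`, and at every point `x` at most its mean over every ball centred at `x`:
`|B| u(x) ≤ ∫_B u⁺ - ∫_B u⁻` (here `∫_B u⁺ < ∞` by upper semicontinuity). -/
structure IsSubharmonic (u : Space n → EReal) : Prop where
  usc : UpperSemicontinuous u
  lt_top : ∀ x, u x < ⊤
  ne_bot : ∃ x, u x ≠ ⊥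
  submean : ∀ (x : Space n) (r : ℝ), 0 < r →
    ((volume (Metric.ball x r)).toReal : EReal) * u x ≤
      ((∫⁻ y in Metric.ball x r, (u y).toENNReal : ℝ≥0∞) : EReal) -
        ((∫⁻ y in Metric.ball x r, (-(u y)).toENNReal : ℝ≥0∞) : EReal)

/-- The fine topology of `ℝⁿ`: the coarsest topology for which every subharmonic function
`ℝⁿ → [-∞, ∞)` is continuous. -/
@[reducible] noncomputable def fineTopology (n : ℕ) : TopologicalSpace (Space n) :=
  ⨅ u : {u : Space n → EReal // IsSubharmonic u}, TopologicalSpace.induced u.1 inferInstance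

/-- A fine domain: a (nonempty) finely open and finely connected set. -/
def IsFineDomain (D : Set (Space n)) : Prop :=
  @IsOpen (Space n) (fineTopology n) D ∧ @IsConnected (Space n) (fineTopology n) D

/-- The Newtonian kernel `N(x, y) = |x - y|^(2 - n)` (`= ∞` for `x = y` when `n ≥ 3`). -/
noncomputable def newton (x y : Space n) : ℝ≥0∞ := edist x y ^ ((2 : ℝ) - n)

/-- The Newtonian potential `y ↦ ∫ N(y, z) dμ(z)` of a measure `μ`. -/
noncomputable def potential (μ : Measure (Space n)) (y : Space n) : ℝ≥0∞ :=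
  ∫⁻ z, newton y z ∂μ

/-- Polar set: the Newtonian potential of some finite measure is `∞` at all of its points. -/
def IsPolar (Z : Set (Space n)) : Prop :=
  ∃ μ : Measure (Space n), IsFiniteMeasure μ ∧ ∀ z ∈ Z, potential μ z = ⊤

/-- `ω` is the (fine) harmonic measure of `D` at `x`, that is, the swept-out measure of the Dirac
measure at `x` onto the complement of `D`: a measure of total mass at most `1`, carried by the
complement of `D`, charging no polar set, whose Newtonian potential is everywhere at most that of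
the Dirac measure at `x`, with equality on the complement of `D` except at the points of a polar
set. -/
structure IsHarmonicMeasure (D : Set (Space n)) (x : Space n) (ω : Measure (Space n)) : Prop where
  mass_le : ω Set.univ ≤ 1
  carried : ω D = 0
  polar : ∀ Z, IsPolar Z → ω Z = 0
  potential_le : ∀ y, potential ω y ≤ newton x y
  potential_eq : ∃ Z, IsPolar Z ∧ ∀ y, y ∉ D → y ∉ Z → potential ω y = newton x y

theorem isPolar_singleton (hn : 3 ≤ n) (z : Space n) : IsPolar {z} := by
  refine ⟨Measure.dirac z, inferInstance, fun y hy => ?_⟩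
  rw [Set.mem_singleton_iff.1 hy]
  exact (TM291.pot_dirac z z).trans (TM291.kernel_self hn z)

theorem IsPolar.volume_zero (hn : 3 ≤ n) {Z : Set (Space n)} (hZ : IsPolar Z) :
    volume Z = 0 := by
  obtain ⟨μ, hμ, hZ'⟩ := hZ
  refine measure_mono_null (t := {y | ¬ TM291.pot μ y < ⊤}) (fun z hz => ?_)
    (ae_iff.1 (TM291.pot_ae_lt_top hn μ))
  change ¬ potential μ z < ⊤
  rw [hZ' z hz]
  exact lt_irrefl _

theorem pair_of_harmonic (hn : 3 ≤ n) {D : Set (Space n)} {x : Space n} {ω : Measure (Space n)}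
    (h : IsHarmonicMeasure D x ω) : TM291.Pair x ω := by
  refine ⟨⟨h.mass_le.trans_lt ENNReal.one_lt_top⟩, fun z => h.polar _ (isPolar_singleton hn z),
    h.potential_le, ?_⟩
  obtain ⟨Z, hZ, hZ'⟩ := h.potential_eq
  have h1 : ∀ᵐ y ∂ω, y ∉ D := by
    rw [ae_iff]; simpa using h.carried
  have h2 : ∀ᵐ y ∂ω, y ∉ Z := by
    rw [ae_iff]; simpa using h.polar Z hZ
  filter_upwards [h1, h2] with y hy1 hy2 using hZ' y hy1 hy2

theorem disj_of_harmonic (hn : 3 ≤ n) {D D' : Set (Space n)} (hd : Disjoint D D')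
    {x x' : Space n} {ω ω' : Measure (Space n)} (h : IsHarmonicMeasure D x ω)
    (h' : IsHarmonicMeasure D' x' ω') :
    volume ({y | 0 < TM291.gf x ω y} ∩ {y | 0 < TM291.gf x' ω' y}) = 0 := by
  obtain ⟨Z, hZ, hZ1⟩ := h.potential_eq
  obtain ⟨Z', hZ', hZ1'⟩ := h'.potential_eq
  have hsub : {y | 0 < TM291.gf x ω y} ∩ {y | 0 < TM291.gf x' ω' y} ⊆ Z ∪ Z' := by
    rintro y ⟨hy, hy'⟩
    change 0 < (newton x y).toReal - (potential ω y).toReal at hy
    change 0 < (newton x' y).toReal - (potential ω' y).toReal at hy'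
    by_contra hnot
    rw [Set.mem_union, not_or] at hnot
    have a1 : y ∈ D := by
      by_contra hD
      rw [hZ1 y hD hnot.1, sub_self] at hy
      exact lt_irrefl _ hy
    have a2 : y ∈ D' := by
      by_contra hD
      rw [hZ1' y hD hnot.2, sub_self] at hy'
      exact lt_irrefl _ hy'
    exact (Set.disjoint_left.1 hd) a1 a2
  exact measure_mono_null hsub (measure_union_null (hZ.volume_zero hn) (hZ'.volume_zero hn))

/-- **Triple meet of harmonic measures.** Let `n ≥ 3`, let `D₁, D₂, D₃ ⊂ ℝⁿ` be pairwise disjoint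
fine domains, `x_j ∈ D_j`, and let `ω_j` be the harmonic measure of `D_j` at `x_j`. Then
`ω₁ ∧ ω₂ ∧ ω₃ = 0` (lattice infimum of measures); equivalently there are Borel sets `S_j` with
`ω_j(ℝⁿ ∖ S_j) = 0` and `S₁ ∩ S₂ ∩ S₃ = ∅`. -/
theorem result (n : ℕ) (hn : 3 ≤ n) (D : Fin 3 → Set (Space n))
    (_hD : ∀ j, IsFineDomain (D j)) (hdisj : ∀ j k, j ≠ k → Disjoint (D j) (D k))
    (x : Fin 3 → Space n) (_hx : ∀ j, x j ∈ D j) (ω : Fin 3 → Measure (Space n))
    (hω : ∀ j, IsHarmonicMeasure (D j) (x j) (ω j)) :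
    ω 0 ⊓ ω 1 ⊓ ω 2 = 0 ∧
      ∃ S : Fin 3 → Set (Space n), (∀ j, MeasurableSet (S j)) ∧ (∀ j, ω j (S j)ᶜ = 0) ∧
        ⋂ j, S j = ∅ := by
  have hp : ∀ j, TM291.Pair (x j) (ω j) := fun j => pair_of_harmonic hn (hω j)
  have h0 := TM291.inf_zero hn x ω hp (fun j k hjk =>
    disj_of_harmonic hn (hdisj j k hjk) (hω j) (hω k))
  exact ⟨h0, TM291.exists_sets ω (fun j => (hp j).fin) h0⟩

end Pool.Agent.Results.MP_291eb9_an.TripleMeet
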